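import Pool.Agent.X268.VL.Stm

set_option linter.unusedSectionVars false

open Finset

namespace Pool.Agent.X268.VL

open Pool.Agent.W539.DI Pool.Agent.X268.HS Pool.Agent.X268.SC

/-- The numbers `h^{n,q}` agree. -/
theorem Compare.h_eq {n : ℕ} {K L : KRing n} (S : Compare K L) (q : ℕ) : K.h n q = L.h n q := by
  obtain ⟨A, c, c', V, W, V', W', pos, Φ, φ', low, low', κ, dirX, dirY⟩ := S
  rw [dirX q, dirY q]
  exact sum_congr rfl fun j _ => κ.iso _ _ _ _ (piece_iso pos Φ φ' low low' j)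

variable {X Y : Irr}

/-- The equality of the sums. -/
def SumsEq (ρ : Rouquier X Y) (i : ℕ) : Prop :=
  ∀ α : ρ.G₀, IsOfFinAddOrder α.1 →
    ∑ k ∈ range (addOrderOf α.1), X.h i (k • α.1) =
      ∑ k ∈ range (addOrderOf (ρ.F α).1), Y.h i (k • (ρ.F α).1)

theorem sums_eq {ρ : Rouquier X Y} {n : ℕ} (h : CoversCompare ρ n) (i : ℕ) : SumsEq ρ i := by
  intro α hα
  obtain ⟨K, L, hK, hL, ⟨S⟩⟩ := h α hα
  rw [← hK i, ← hL i]
  exact S.h_eq i

/-- The inverse. -/
def Rouquier.symm (ρ : Rouquier X Y) : Rouquier Y X where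
  G₀ := ρ.H₀
  H₀ := ρ.G₀
  F := ρ.F.symm
  ab B' hB' B hB h := by
    refine (ρ.ab B hB B' hB' fun x => ?_).symm
    have := h (ρ.F x)
    rw [ρ.F.symm_apply_apply] at this
    exact this.symm
  in_X := ρ.in_Y
  in_Y := ρ.in_X

theorem SumsEq.symm {ρ : Rouquier X Y} {i : ℕ} (h : SumsEq ρ i) : SumsEq ρ.symm i := by
  intro (β : ρ.H₀) hβ
  have e : ρ.F (ρ.F.symm β) = β := ρ.F.apply_symm_apply β
  have hα : IsOfFinAddOrder (ρ.F.symm β).1 := by
    rw [isOfFinAddOrder_iff_nsmul_eq_zero] at hβ ⊢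
    obtain ⟨n, hn, hn0⟩ := hβ
    refine ⟨n, hn, ?_⟩
    have h1 : n • β = 0 := Subtype.ext hn0
    have h2 : n • ρ.F.symm β = 0 := by rw [← map_nsmul, h1, map_zero]
    exact congrArg Subtype.val h2
  have h1 := h (ρ.F.symm β) hα
  rw [e] at h1
  exact h1.symm

/-- Elements of prime order outside finitely many subgroups. -/
theorem exists_tors {G : Type} [AddCommGroup G] {ab : Set (AddSubgroup G)} (hab : IsAb ab)
    (B : AddSubgroup G) (hB : B ∈ ab) (r : ℕ) (C : Fin r → AddSubgroup G) (hC : ∀ j, C j ∈ ab)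
    (hBC : ∀ j, ¬ B ≤ C j) (M : ℕ) : ∃ p : ℕ, p.Prime ∧ M < p ∧ ∃ β ∈ B, p • β = 0 ∧
      ∀ j, β ∉ C j := by
  classical
  choose N hN using fun j => hab.sep B hB (C j) (hC j) (hBC j)
  obtain ⟨p, hp1, hp⟩ := Nat.exists_infinite_primes (M + r + 1 + ∑ j, N j)
  have hNp : ∀ j, N j < p := by
    intro j
    have : N j ≤ ∑ j, N j := Finset.single_le_sum (f := N) (fun _ _ => Nat.zero_le _) (mem_univ j)
    omega
  refine ⟨p, hp, by omega, ?_⟩
  by_contra hcon
  push Not at hcon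
  have hfin := hab.fin B hB p hp
  have hsub : tors B p ⊆ ⋃ j ∈ (univ : Finset (Fin r)), tors (B ⊓ C j) p := by
    intro β hβ
    obtain ⟨j, hj⟩ := hcon β hβ.1 hβ.2
    simp only [Set.mem_iUnion]
    exact ⟨j, mem_univ j, ⟨hβ.1, hj⟩, hβ.2⟩
  have hfinU : (⋃ j ∈ (univ : Finset (Fin r)), tors (B ⊓ C j) p).Finite := by
    refine hfin.subset ?_
    intro x hx
    simp only [Set.mem_iUnion] at hx
    obtain ⟨j, -, hx⟩ := hx
    exact ⟨hx.1.1, hx.2⟩
  have h1 := Set.ncard_le_ncard hsub hfinU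
  have h2 : (⋃ j ∈ (univ : Finset (Fin r)), tors (B ⊓ C j) p).ncard ≤
      ∑ j, (tors (B ⊓ C j) p).ncard := by
    have : ∀ s : Finset (Fin r), (⋃ j ∈ s, tors (B ⊓ C j) p).ncard ≤
        ∑ j ∈ s, (tors (B ⊓ C j) p).ncard := by
      intro s
      induction s using Finset.induction_on with
      | empty => simp
      | insert a s ha ih =>
        rw [Finset.set_biUnion_insert, Finset.sum_insert ha]
        exact (Set.ncard_union_le _ _).trans (Nat.add_le_add_left ih _)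
    exact this univ
  have hpos : 0 < (tors B p).ncard := by
    rw [Set.ncard_pos hfin]
    exact ⟨0, B.zero_mem, smul_zero p⟩
  have h3 : p * ∑ j, (tors (B ⊓ C j) p).ncard ≤ r * (tors B p).ncard := by
    rw [Finset.mul_sum]
    have : ∑ j : Fin r, p * (tors (B ⊓ C j) p).ncard ≤ ∑ _j : Fin r, (tors B p).ncard :=
      Finset.sum_le_sum fun j _ => hN j p hp (hNp j)
    rw [Finset.sum_const, card_univ, Fintype.card_fin, smul_eq_mul] at this
    exact this
  have h4 : p * (tors B p).ncard ≤ r * (tors B p).ncard :=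
    (Nat.mul_le_mul_left p (h1.trans h2)).trans h3
  have h5 := Nat.le_of_mul_le_mul_right h4 hpos
  omega

/-- **The abelian subvarieties in the loci correspond.** -/
theorem inside {ρ : Rouquier X Y} {i : ℕ} (hs : SumsEq ρ i) (B : AddSubgroup X.G)
    (hin : Inside X i B) (B' : AddSubgroup Y.G) (hB' : B' ∈ Y.ab) (hle : B' ≤ ρ.H₀)
    (hBB : ∀ x : ρ.G₀, x.1 ∈ B ↔ (ρ.F x).1 ∈ B') : Inside Y i B' := by
  classical
  by_contra hcon
  unfold Inside at hcon
  push Not at hcon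
  obtain ⟨b, hb, hb0⟩ := hcon
  obtain ⟨r, τ, C, hτ, hC, hV⟩ := Y.locus i
  have hV' : ∀ x, Y.h i x ≠ 0 ↔ ∃ j, x - τ j ∈ C j := hV
  have hτC : ∀ j, B' ≤ C j → τ j ∉ C j := by
    intro j hj hτj
    refine (hV' b).mpr ⟨j, (C j).sub_mem (hj hb) hτj⟩ hb0
  -- the origin
  have h0 : X.h i 0 = Y.h i 0 := by
    have h1 := hs 0 (isOfFinAddOrder_iff_nsmul_eq_zero.mpr ⟨1, one_pos, by simp⟩)
    rw [map_zero] at h1
    simpa using h1
  have hX0 : X.h i 0 ≠ 0 := hin 0 B.zero_mem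
  by_cases hbot : B' ≤ ⊥
  · have : b = 0 := by simpa using hbot hb
    rw [this, ← h0] at hb0
    exact hX0 hb0
  -- the subgroups to avoid
  let D : Fin (r + 1) → AddSubgroup Y.G := Fin.cons ⊥ fun j => if B' ≤ C j then ⊥ else C j
  have hD : ∀ j, D j ∈ Y.ab := by
    intro j
    refine Fin.cases ?_ (fun j => ?_) j
    · exact Y.isAb.bot
    · show (if B' ≤ C j then ⊥ else C j) ∈ Y.ab
      split_ifs
      · exact Y.isAb.bot
      · exact hC j
  have hBD : ∀ j, ¬ B' ≤ D j := by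
    intro j
    refine Fin.cases ?_ (fun j => ?_) j
    · exact hbot
    · show ¬ B' ≤ (if B' ≤ C j then ⊥ else C j)
      split_ifs with h
      · exact hbot
      · exact h
  obtain ⟨p, hp, hMp, β, hβ, hpβ, hβD⟩ := exists_tors Y.isAb B' hB' (r + 1) D hD hBD
    (∑ j, addOrderOf (τ j))
  have hβ0 : β ≠ 0 := by
    intro h
    exact hβD 0 (by rw [h]; exact AddSubgroup.zero_mem _)
  have hβC : ∀ j, ¬ B' ≤ C j → β ∉ C j := by
    intro j hj
    have h1 : β ∉ (if B' ≤ C j then ⊥ else C j) := hβD j.succ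
    rw [if_neg hj] at h1
    exact h1
  -- the preimage
  let β' : ρ.H₀ := ⟨β, hle hβ⟩
  let α := ρ.F.symm β'
  have hFα : ρ.F α = β' := ρ.F.apply_symm_apply β'
  have hαB : α.1 ∈ B := by
    rw [hBB, hFα]
    exact hβ
  have hpα : p • α.1 = 0 := by
    have h1 : p • β' = 0 := Subtype.ext hpβ
    have h2 : p • α = 0 := by
      show p • ρ.F.symm β' = 0
      rw [← map_nsmul, h1, map_zero]
    exact congrArg Subtype.val h2
  have hα0 : α.1 ≠ 0 := by
    intro h
    have h1 : α = 0 := Subtype.ext h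
    rw [h1, map_zero] at hFα
    exact hβ0 (congrArg Subtype.val hFα).symm
  have hoα : addOrderOf α.1 = p := by
    have := Fact.mk hp
    exact addOrderOf_eq_prime hpα hα0
  have hoβ : addOrderOf β = p := by
    have := Fact.mk hp
    exact addOrderOf_eq_prime hpβ hβ0
  have hsum := hs α (isOfFinAddOrder_iff_nsmul_eq_zero.mpr ⟨p, hp.pos, hpα⟩)
  rw [hFα, hoα, hoβ] at hsum
  obtain ⟨q, rfl⟩ : ∃ q, p = q + 1 := ⟨p - 1, by have := hp.pos; omega⟩
  rw [sum_range_succ', sum_range_succ', zero_smul, zero_smul, h0] at hsum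
  have hsum' := Nat.add_right_cancel hsum
  have hq : 0 < q := by
    have := hp.two_le
    omega
  have hpos : 0 < ∑ k ∈ range q, X.h i ((k + 1) • α.1) := by
    refine Finset.sum_pos (fun k _ => Nat.pos_of_ne_zero (hin _ (B.nsmul_mem hαB _))) ?_
    exact ⟨0, mem_range.mpr hq⟩
  rw [hsum'] at hpos
  obtain ⟨k, hk, hk0⟩ := Finset.exists_ne_zero_of_sum_ne_zero hpos.ne'
  rw [mem_range] at hk
  obtain ⟨j, hj⟩ := (hV' _).mp hk0
  by_cases hjB : B' ≤ C j
  · apply hτC j hjB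
    have h1 : (k + 1) • β ∈ C j := hjB (B'.nsmul_mem hβ _)
    have h2 := (C j).sub_mem h1 hj
    rwa [sub_sub_cancel] at h2
  · apply hβC j hjB
    set N := addOrderOf (τ j) with hN
    have hN1 : 0 < N := (hτ j).addOrderOf_pos
    have hN2 : N < q + 1 := by
      have : N ≤ ∑ j, addOrderOf (τ j) :=
        Finset.single_le_sum (f := fun j => addOrderOf (τ j)) (fun _ _ => Nat.zero_le _)
          (mem_univ j)
      omega
    have h1 : (N * (k + 1)) • β ∈ C j := by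
      have h2 := (C j).nsmul_mem hj N
      rw [smul_sub, hN, addOrderOf_nsmul_eq_zero, sub_zero, ← mul_smul] at h2
      exact h2
    have hcop : Nat.Coprime (N * (k + 1)) (q + 1) := by
      refine Nat.Coprime.mul_left ?_ ?_
      · exact (Nat.coprime_of_lt_prime hN1.ne' hN2 hp).symm
      · exact (Nat.coprime_of_lt_prime (by omega) (by omega) hp).symm
    have hbez := Int.gcd_eq_gcd_ab ((N * (k + 1) : ℕ) : ℤ) ((q + 1 : ℕ) : ℤ)
    have hg : (Int.gcd ((N * (k + 1) : ℕ) : ℤ) ((q + 1 : ℕ) : ℤ) : ℤ) = 1 := by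
      rw [Int.gcd_natCast_natCast]
      exact_mod_cast hcop
    rw [hg] at hbez
    have h3 : β = (Int.gcdA ((N * (k + 1) : ℕ) : ℤ) ((q + 1 : ℕ) : ℤ)) • ((N * (k + 1)) • β) +
        (Int.gcdB ((N * (k + 1) : ℕ) : ℤ) ((q + 1 : ℕ) : ℤ)) • ((q + 1) • β) := by
      conv_lhs => rw [← one_zsmul β, hbez]
      rw [add_zsmul, mul_comm, mul_zsmul, natCast_zsmul, mul_comm ((q + 1 : ℕ) : ℤ), mul_zsmul,
        natCast_zsmul]
    rw [h3, hpβ, smul_zero, add_zero]
    exact (C j).zsmul_mem h1 _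

/-- The image of a subgroup. -/
def img (ρ : Rouquier X Y) (B : AddSubgroup X.G) : AddSubgroup Y.G :=
  (B.comap ρ.G₀.subtype).map (ρ.H₀.subtype.comp ρ.F.toAddMonoidHom)

theorem img_le (ρ : Rouquier X Y) (B : AddSubgroup X.G) : img ρ B ≤ ρ.H₀ := by
  rintro _ ⟨x, -, rfl⟩
  exact (ρ.F x).2

theorem mem_img (ρ : Rouquier X Y) (B : AddSubgroup X.G) (x : ρ.G₀) :
    x.1 ∈ B ↔ (ρ.F x).1 ∈ img ρ B := by
  constructor
  · intro h
    exact ⟨x, h, rfl⟩
  · rintro ⟨y, hy, hyx⟩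
    have h1 : ρ.F y = ρ.F x := Subtype.ext hyx
    have h2 := ρ.F.injective h1
    rw [← h2]
    exact hy

theorem V0_map {ρ : Rouquier X Y} {i : ℕ} (hs : SumsEq ρ i) (α : X.G) (hα : α ∈ V0 X i) :
    ∃ h : α ∈ ρ.G₀, (ρ.F ⟨α, h⟩).1 ∈ V0 Y i := by
  obtain ⟨B, hB, hin, hαB⟩ := hα
  have hle := ρ.in_X i B hB hin
  refine ⟨hle hαB, img ρ B, ?_, ?_, ?_⟩
  · exact (ρ.ab B hle _ (img_le ρ B) (mem_img ρ B)).mp hB
  · exact inside hs B hin _ ((ρ.ab B hle _ (img_le ρ B) (mem_img ρ B)).mp hB) (img_le ρ B)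
      (mem_img ρ B)
  · exact (mem_img ρ B ⟨α, hle hαB⟩).mp hαB

/-- **The loci correspond.** -/
theorem same_loci {ρ : Rouquier X Y} {i : ℕ} (hs : SumsEq ρ i) : SameLoci ρ i := by
  refine ⟨fun α hα => (V0_map hs α hα).1, fun β hβ => (V0_map hs.symm β hβ).1, fun α => ?_⟩
  constructor
  · intro h
    exact (V0_map hs α.1 h).2
  · intro h
    obtain ⟨h1, h2⟩ := V0_map hs.symm (ρ.F α).1 h
    have e : ρ.symm.F ⟨(ρ.F α).1, h1⟩ = α := ρ.F.symm_apply_apply α
    rw [e] at h2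
    exact h2

/-! ### The numbers `h^{n,i}` for `i ≤ 2` and `i ≥ n - 1` -/

theorem edge_eq {n : ℕ} {K L : KRing n} (hn : 2 ≤ n) (Φ : FM K L) (h10 : K.h 1 0 = L.h 1 0)
    (i : ℕ) (hi : i ≤ 2 ∨ n ≤ i + 1) : K.h n i = L.h n i := by
  rcases lt_trichotomy n i with h | h | h
  · rw [K.h_zero (by omega), L.h_zero (by omega)]
  · subst h
    have e : ∀ Z : KRing n, Z.h n n = 1 := fun Z => by
      rw [← Z.h00, Z.h_symm (p := 0) (q := 0) n (by ring), zero_add]
    rw [e, e]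
  by_cases h1 : n = i + 1
  · have e : ∀ Z : KRing n, Z.h n i = Z.h 1 0 := fun Z => by
      rw [Z.h_symm (p := 1) (q := 0) i (by omega)]
      congr 1
      · omega
      · ring
    rw [e, e, h10]
  have hi2 : i ≤ 2 := by omega
  interval_cases i
  · have t := Φ.total_all n 0 {0} (by
      intro k hk
      rw [Finset.mem_singleton] at hk
      omega)
    simpa using t
  · have t := Φ.total_all n 1 {0, -1} (by
      intro k hk
      simp only [Finset.mem_insert, Finset.mem_singleton] at hk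
      omega)
    rw [Finset.sum_pair (by norm_num), Finset.sum_pair (by norm_num)] at t
    have e : ∀ Z : KRing n, Z.h (n + -1) (1 + -1) = Z.h n 1 := fun Z => by
      rw [Z.h_symm (p := (n : ℤ) + -1) (q := 1 + -1) 1 (by push_cast; ring)]
      congr 1
      push_cast
      ring
    rw [e, e, add_zero, add_zero] at t
    push_cast
    omega
  · have t := (Φ.edge hn).1
    have e : ∀ Z : KRing n, Z.h n ((2 : ℕ) : ℤ) = Z.h (n - 2) 0 := fun Z => by
      rw [Z.h_symm (p := (n : ℤ) - 2) (q := 0) 2 (by push_cast; ring)]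
      congr 1
      push_cast
      ring
    rw [e, e]
    exact t

theorem sums_edge {ρ : Rouquier X Y} {n : ℕ} (hn : 2 ≤ n) (h : CoversFM ρ n) (i : ℕ)
    (hi : i ≤ 2 ∨ n ≤ i + 1) : SumsEq ρ i := by
  intro α hα
  obtain ⟨K, L, hK, hL, ⟨Φ⟩, h10⟩ := h α hα
  rw [← hK i, ← hL i]
  exact edge_eq hn Φ h10 i hi

end Pool.Agent.X268.VL
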