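import Pool.Agent.X268.SC.Kol

set_option linter.unusedSectionVars false

open Finset

namespace Pool.Agent.X268.VL

open Pool.Agent.W539.DI Pool.Agent.X268.HS Pool.Agent.X268.SC

/-- The elements of `B` killed by `p`. -/
def tors {G : Type} [AddCommGroup G] (B : AddSubgroup G) (p : ℕ) : Set G :=
  {x | x ∈ B ∧ p • x = 0}

/-- A system `ab` of subgroups of `G` with some properties of the abelian subvarieties of an abelian
variety `G`: the trivial subgroup belongs to `ab`, the `p`-torsion is finite, and if `B` is not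
contained in `C` then, for all large primes `p`, the index of the `p`-torsion of `B ∩ C` in the
`p`-torsion of `B` is at least `p`. -/
structure IsAb {G : Type} [AddCommGroup G] (ab : Set (AddSubgroup G)) : Prop where
  bot : ⊥ ∈ ab
  fin : ∀ B ∈ ab, ∀ p : ℕ, p.Prime → (tors B p).Finite
  sep : ∀ B ∈ ab, ∀ C ∈ ab, ¬ B ≤ C → ∃ N : ℕ, ∀ p : ℕ, p.Prime → N < p →
    p * (tors (B ⊓ C) p).ncard ≤ (tors B p).ncard

/-- `V` is a finite union of translates of elements of `ab` by torsion points. -/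
def IsLocus {G : Type} [AddCommGroup G] (ab : Set (AddSubgroup G)) (V : Set G) : Prop :=
  ∃ (r : ℕ) (τ : Fin r → G) (C : Fin r → AddSubgroup G), (∀ j, IsOfFinAddOrder (τ j)) ∧
    (∀ j, C j ∈ ab) ∧ ∀ x, x ∈ V ↔ ∃ j, x - τ j ∈ C j

/-- The data of `Pic⁰(X)`: the group `G`, its abelian subvarieties `ab`, and the functions
`h i α = dim H^i(X, ω_X ⊗ α)`; the loci `{α | h i α ≠ 0}` are finite unions of translates of abelian
subvarieties by torsion points (Green, Lazarsfeld; Simpson). -/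
structure Irr where
  G : Type
  [grp : AddCommGroup G]
  ab : Set (AddSubgroup G)
  isAb : IsAb ab
  h : ℕ → G → ℕ
  locus : ∀ i, IsLocus ab {α | h i α ≠ 0}

attribute [instance] Irr.grp

/-- `B` is contained in the cohomological support locus `V^i(ω_X)`. -/
def Inside (X : Irr) (i : ℕ) (B : AddSubgroup X.G) : Prop := ∀ α ∈ B, X.h i α ≠ 0

/-- The locus `V^i(ω_X)_0`: the union of the irreducible components of `V^i(ω_X)` through the origin,
that is, of all abelian subvarieties contained in `V^i(ω_X)`. -/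
def V0 (X : Irr) (i : ℕ) : Set X.G := {α | ∃ B ∈ X.ab, Inside X i B ∧ α ∈ B}

/-- The restriction `F : G₀ ≃ H₀` of the isomorphism of Rouquier to the line bundles in `Pic⁰(X)`
which it sends to `Pic⁰(Y)`.  It respects abelian subvarieties, and the loci `V^i(ω)_0` are contained
in `G₀` and `H₀`. -/
structure Rouquier (X Y : Irr) where
  G₀ : AddSubgroup X.G
  H₀ : AddSubgroup Y.G
  F : G₀ ≃+ H₀
  ab : ∀ B : AddSubgroup X.G, B ≤ G₀ → ∀ B' : AddSubgroup Y.G, B' ≤ H₀ →
    (∀ x : G₀, x.1 ∈ B ↔ (F x).1 ∈ B') → (B ∈ X.ab ↔ B' ∈ Y.ab)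
  in_X : ∀ (i : ℕ), ∀ B ∈ X.ab, Inside X i B → B ≤ G₀
  in_Y : ∀ (i : ℕ), ∀ B ∈ Y.ab, Inside Y i B → B ≤ H₀

/-- Two varieties of dimension `n` with morphisms to the same variety, whose fibres have isomorphic
variations of Hodge structure in low degrees, related by an isometry (`Isom`), such that the numbers
`h^{n,q}` are computed by the theorems of Kollár (`DirectImages`). -/
structure Compare {n : ℕ} (K L : KRing n) where
  A : Type
  [ring : Ring A]
  [alg : Algebra ℚ A]
  [star : StarRing A]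
  c : ℕ
  c' : ℕ
  V : LefMod A (2 * c)
  W : LefMod A (2 * c)
  V' : LefMod A (2 * c' + 1)
  W' : LefMod A (2 * c' + 1)
  pos : JointPos V W
  Φ : Isom V W
  φ' : V'.Iso W'.toLData
  low : LowIso V W (c - 2)
  low' : LowIso V' W' (c' - 1)
  κ : Numbers A
  dirX : DirectImages κ V V' K
  dirY : DirectImages κ W W' L

/-- `K` is the cohomology of the cyclic étale cover of degree `d` given by the torsion line bundle
`α` of order `d`: `h^{n,i} = ∑ dim H^i(X, ω_X ⊗ α^k)`, `0 ≤ k < d`. -/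
def CoverOf (X : Irr) (α : X.G) {n : ℕ} (K : KRing n) : Prop :=
  ∀ i : ℕ, K.h n i = ∑ k ∈ range (addOrderOf α), X.h i (k • α)

/-- The cyclic étale covers given by a torsion line bundle `α` in `G₀` and by `F α`. -/
def CoversCompare {X Y : Irr} (ρ : Rouquier X Y) (n : ℕ) : Prop :=
  ∀ α : ρ.G₀, IsOfFinAddOrder α.1 → ∃ K L : KRing n,
    CoverOf X α.1 K ∧ CoverOf Y (ρ.F α).1 L ∧ Nonempty (Compare K L)

/-- The same with the isometry (`FM`) given by an equivalence of derived categories, and with the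
same number of holomorphic one-forms. -/
def CoversFM {X Y : Irr} (ρ : Rouquier X Y) (n : ℕ) : Prop :=
  ∀ α : ρ.G₀, IsOfFinAddOrder α.1 → ∃ K L : KRing n,
    CoverOf X α.1 K ∧ CoverOf Y (ρ.F α).1 L ∧ Nonempty (FM K L) ∧ K.h 1 0 = L.h 1 0

/-- The isomorphism `F` of Rouquier restricts to a bijection of `V^i(ω_X)_0` and `V^i(ω_Y)_0`. -/
def SameLoci {X Y : Irr} (ρ : Rouquier X Y) (i : ℕ) : Prop :=
  (∀ α ∈ V0 X i, α ∈ ρ.G₀) ∧ (∀ β ∈ V0 Y i, β ∈ ρ.H₀) ∧
    ∀ α : ρ.G₀, α.1 ∈ V0 X i ↔ (ρ.F α).1 ∈ V0 Y i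

end Pool.Agent.X268.VL
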